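import Mathlib
import Pool.Agent.R158.Rect

/-!
# Special line sections shared by two planes

Q1 of the problem is answered affirmatively: in every nontrivial projective rectangle (finite or
infinite), for every plane `π` and every special line `s` there is a plane `π' ≠ π` with
`s ∩ π' = s ∩ π`, and `s ∩ π` is one of the lines of `π'`.
-/

set_option autoImplicit false

namespace Pool.Agent.Results.MP_81f70c_co.SpecialSections

open Pool.Agent.R158.Rect

theorem result {P : Type*} (R : ProjectiveRectangle P) (hR : R.IsNontrivial) (π s : Set P)
    (hπ : R.IsPlane π) (hs : s ∈ R.lines) (hD : R.D ∈ s) :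
    ∃ π' : Set P, R.IsPlane π' ∧ π' ≠ π ∧ s ∩ π' = s ∩ π ∧ s ∩ π ∈ R.subLines π' :=
  ProjectiveRectangle.main hR hπ hs hD

end Pool.Agent.Results.MP_81f70c_co.SpecialSections
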